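import Pool.Agent.helper97.GD.SpecB

set_option autoImplicit false

/-!
Row gd:BQT (MP_37e5fa_nt): floor divisions in the classes with small denominators.
-/

open Filter

namespace Pool.Agent.GD

theorem BQT_smpow (hGSM : GSM_stmt) (U : Ultrafilter ℕ) (N : ℕ → ℕ)
    (hN : Tendsto N (U : Filter ℕ) atTop) (a : ℕ → ℤ) (ha : Sm U N a) (K : ℕ) :
    Sm U N (fun k => a k ^ K) := by
  obtain ⟨h1, h2, -⟩ := hGSM U N hN
  induction K with
  | zero =>
    simp only [pow_zero]
    exact h1 1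
  | succ K ih =>
    simp only [pow_succ]
    exact (h2 _ _ ih ha).2.2

/-- the geometric series -/
theorem BQT_ser (hGSM : GSM_stmt) (hBLV : BLV_stmt) (U : Ultrafilter ℕ) (N : ℕ → ℕ)
    (hN : Tendsto N (U : Filter ℕ) atTop) (n : ℕ) (w t : ℕ → ℤ) (hw : Lw U N (n + 1) w)
    (ht : Lw U N (n + 1) t) (K : ℕ) :
    ∃ S : ℕ → ℤ, Lw U N (n + 1) S ∧ Lw U N (n + 1) (fun k => (-t k) ^ K) ∧
      ∀ k, (w k + t k) * S k = w k ^ K - (-t k) ^ K := by
  obtain ⟨b1, b2, b3, b4, b5, b6, b7⟩ := hBLV U N hN (n + 1)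
  obtain ⟨h1, -⟩ := hGSM U N hN
  have hnt : Lw U N (n + 1) (fun k => -t k) := by
    have h2 := (b4 _ _ (b2 _ (h1 0)) ht).2.1
    simp only [zero_sub] at h2
    exact h2
  induction K with
  | zero =>
    refine ⟨fun _ => 0, b2 _ (h1 0), ?_, fun k => by simp⟩
    simp only [pow_zero]
    exact b2 _ (h1 1)
  | succ K ih =>
    obtain ⟨S, hS, hp, hk⟩ := ih
    refine ⟨fun k => w k * S k + (-t k) ^ K, (b4 _ _ (b4 _ _ hw hS).2.2 hp).1, ?_, fun k => ?_⟩
    · simp only [pow_succ]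
      exact (b4 _ _ hp hnt).2.2
    · have h3 := hk k
      linear_combination w k * h3

/-- the inequality -/
theorem BQT_int (x y d a t S : ℤ) (e K : ℕ) (hy : y ≠ 0) (h1 : d * y = a * 2 ^ e + t)
    (h2 : (a * 2 ^ e + t) * S = (a * 2 ^ e) ^ K - (-t) ^ K) (h3 : |x| * |t| ^ K ≤ 2 ^ (K * e)) :
    |a ^ K * (x / y) - (d * x * S) / 2 ^ (K * e)| ≤ 2 * (|a ^ K| + 1) := by
  have hW : (0 : ℤ) < 2 ^ (K * e) := by positivity
  have hy1 : 1 ≤ |y| := Int.one_le_abs hy
  have e1 : y * (x / y) + x % y = x := Int.mul_ediv_add_emod x y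
  have e2 : 0 ≤ x % y := Int.emod_nonneg x hy
  have e3 : x % y < |y| := Int.emod_lt_abs x hy
  have e4 : (2 : ℤ) ^ (K * e) * ((d * x * S) / 2 ^ (K * e)) + (d * x * S) % 2 ^ (K * e) = d * x * S :=
    Int.mul_ediv_add_emod _ _
  have e5 : 0 ≤ (d * x * S) % 2 ^ (K * e) := Int.emod_nonneg _ hW.ne'
  have e6 : (d * x * S) % 2 ^ (K * e) < 2 ^ (K * e) := Int.emod_lt_of_pos _ hW
  have e7 : (a * 2 ^ e) ^ K = a ^ K * 2 ^ (K * e) := by
    rw [mul_pow, ← pow_mul, mul_comm e K]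
  rw [e7, ← h1] at h2
  generalize hq : (-t) ^ K = q at *
  generalize hWW : (2 : ℤ) ^ (K * e) = W at *
  generalize hA : a ^ K = A at *
  generalize hg : x / y = g at *
  generalize hr : x % y = r at *
  generalize hP : d * x * S = P at *
  generalize hQ : P / W = Q at *
  generalize hR : P % W = R at *
  have hq' : |q| = |t| ^ K := by
    rw [← hq, abs_pow, abs_neg]
  rw [← hq'] at h3
  have k1 : y * (A * W * g - P) = x * q - A * W * r := by
    rw [← hP]
    linear_combination A * W * e1 - x * h2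
  have k2 : |y| * |A * W * g - P| ≤ |y| * (W * (1 + |A|)) := by
    rw [← abs_mul, k1]
    have hr' : |r| = r := abs_of_nonneg e2
    calc |x * q - A * W * r| ≤ |x * q| + |A * W * r| := abs_sub _ _
      _ = |x| * |q| + |A| * W * r := by
        rw [abs_mul, abs_mul, abs_mul, hr', abs_of_pos hW]
      _ ≤ W + |A| * W * |y| := by
        have : |A| * W * r ≤ |A| * W * |y| :=
          mul_le_mul_of_nonneg_left e3.le (by positivity)
        linarith
      _ ≤ |y| * (W * (1 + |A|)) := by nlinarith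
  have k3 : |A * W * g - P| ≤ W * (1 + |A|) := le_of_mul_le_mul_left k2 (by linarith)
  have k4 : W * |A * g - Q| ≤ W * (2 * (|A| + 1)) := by
    have h4 : W * (A * g - Q) = (A * W * g - P) + R := by linear_combination (-1 : ℤ) * e4
    have h5 : |W * (A * g - Q)| = W * |A * g - Q| := by rw [abs_mul, abs_of_pos hW]
    rw [← h5, h4]
    have h6 : |R| = R := abs_of_nonneg e5
    have h7 := abs_add_le (A * W * g - P) R
    rw [h6] at h7
    have h8 : 0 ≤ W * |A| := by positivity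
    linarith
  exact le_of_mul_le_mul_left k4 hW

/-- **BQT** -/
theorem BQT (hGSM : GSM_stmt) (hGNG : GNG_stmt) (hBLV : BLV_stmt) (hBSH : BSH_stmt)
    (hBLT : BLT_stmt) : BQT_stmt := by
  intro U N hN n s x y hx hy hxs
  obtain ⟨g1, g2, g3, -⟩ := hGSM U N hN
  obtain ⟨b1, b2, b3, b4, b5, b6, b7⟩ := hBLV U N hN (n + 1)
  obtain ⟨c1, c2, c3, c4, c5, c6, c7⟩ := hBLV U N hN n
  rcases hBLT U N hN n y hy with hs | ⟨d, a, e, t, j, hd, hd0, ha, ha0, he, hFe, ht, hj, hdy, hte⟩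
  · exact b6 y x hs hx
  have hw : Lw U N (n + 1) (fun k => a k * 2 ^ (e k).toNat) := (b4 _ _ (b2 _ ha) (c7 e he)).2.2
  obtain ⟨S, hS, -, hSk⟩ := BQT_ser hGSM hBLV U N hN n (fun k => a k * 2 ^ (e k).toNat) t hw ht (2 * j * s)
  have hP : Lw U N (n + 1) (fun k => d k * x k * S k) :=
    (b4 _ _ (b4 _ _ (b2 _ hd) hx).2.2 hS).2.2
  have hE : Lw U N n (fun k => ((2 * j * s : ℕ) : ℤ) * e k) := (c4 _ _ (c2 _ (g1 _)) he).2.2
  have hepos : ∀ᶠ k in (U : Filter ℕ), 0 < e k := by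
    obtain ⟨i, hi⟩ := hFe
    filter_upwards [hi, hN.eventually_ge_atTop 1] with k h1 h2
    by_contra h3
    have h4 : (i : ℤ) * e k ≤ 0 := mul_nonpos_of_nonneg_of_nonpos (by positivity) (by linarith)
    have h5 : (1 : ℤ) ≤ N k := by exact_mod_cast h2
    linarith
  have hE0 : ∀ᶠ k in (U : Filter ℕ), 0 ≤ ((2 * j * s : ℕ) : ℤ) * e k := by
    filter_upwards [hepos] with k h1
    positivity
  have hQ := hBSH U N hN n (fun k => d k * x k * S k) (fun k => ((2 * j * s : ℕ) : ℤ) * e k) hP hE hE0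
  have haK : Sm U N (fun k => a k ^ (2 * j * s)) := BQT_smpow hGSM U N hN a ha _
  have haK0 : ∀ᶠ k in (U : Filter ℕ), a k ^ (2 * j * s) ≠ 0 := by
    filter_upwards [ha0] with k h1
    exact pow_ne_zero _ h1
  have hsmall : Sm U N (fun k => a k ^ (2 * j * s) * (x k / y k) -
      (d k * x k * S k) / 2 ^ (((2 * j * s : ℕ) : ℤ) * e k).toNat) := by
    refine g3 _ _ 2 haK ?_
    filter_upwards [hxs, hepos, ha0, hdy, hte, hN.eventually_ge_atTop j] with k h1 h2 h3 h4 h5 h6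
    have hNj : 1 ≤ N k / j := (Nat.one_le_div_iff hj).2 h6
    have hpw : (2 : ℤ) ≤ 2 ^ (N k / j) := by
      calc (2 : ℤ) = 2 ^ 1 := (pow_one 2).symm
        _ ≤ 2 ^ (N k / j) := pow_le_pow_right₀ (by norm_num) hNj
    have hpe : (0 : ℤ) < 2 ^ (e k).toNat := by positivity
    have hy0 : y k ≠ 0 := by
      intro h7
      rw [h7, mul_zero] at h4
      have h8 : |t k| = |a k| * 2 ^ (e k).toNat := by
        have h9 : t k = -(a k * 2 ^ (e k).toNat) := by linarith
        rw [h9, abs_neg, abs_mul, abs_of_pos hpe]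
      have h10 : 1 ≤ |a k| := Int.one_le_abs h3
      have h11 : (2 : ℤ) ^ (e k).toNat ≤ |t k| := by
        rw [h8]
        nlinarith
      nlinarith [abs_nonneg (t k)]
    have htoN : (((2 * j * s : ℕ) : ℤ) * e k).toNat = (2 * j * s) * (e k).toNat := by
      have h7 : ((e k).toNat : ℤ) = e k := Int.toNat_of_nonneg h2.le
      rw [← h7, ← Nat.cast_mul, Int.toNat_natCast, h7]
    rw [htoN]
    refine BQT_int (x k) (y k) (d k) (a k) (t k) (S k) (e k).toNat (2 * j * s) hy0 h4 (hSk k) ?_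
    have h12 : s * N k ≤ (N k / j) * (2 * j * s) := by
      have h13 : N k < j * (N k / j + 1) := by
        have := Nat.lt_mul_div_succ (N k) hj
        simpa using this
      have h14 : N k ≤ 2 * j * (N k / j) := by nlinarith
      calc s * N k ≤ s * (2 * j * (N k / j)) := Nat.mul_le_mul_left _ h14
        _ = (N k / j) * (2 * j * s) := by ring
    calc |x k| * |t k| ^ (2 * j * s) ≤ 2 ^ (s * N k) * |t k| ^ (2 * j * s) :=
          mul_le_mul_of_nonneg_right h1 (by positivity)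
      _ ≤ 2 ^ ((N k / j) * (2 * j * s)) * |t k| ^ (2 * j * s) :=
          mul_le_mul_of_nonneg_right (pow_le_pow_right₀ (by norm_num) h12) (by positivity)
      _ = (|t k| * 2 ^ (N k / j)) ^ (2 * j * s) := by
          rw [mul_pow, ← pow_mul]
          ring
      _ ≤ (2 ^ (e k).toNat) ^ (2 * j * s) := pow_le_pow_left₀ (by positivity) h5 _
      _ = 2 ^ ((2 * j * s) * (e k).toNat) := by rw [← pow_mul, mul_comm]
  have hsum := (b4 _ _ hQ (b2 _ hsmall)).1
  refine b5 _ (fun k => x k / y k) haK haK0 (b1 _ _ hsum (Eventually.of_forall fun k => ?_))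
  ring

end Pool.Agent.GD
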