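import Pool.Agent.helper97.GD.Spec

set_option autoImplicit false

/-!
Row gd:GSM (MP_37e5fa_nt, MP_a70bdc_nt): calculus of the small functions.
-/

open Filter FirstOrder FirstOrder.Language

namespace Pool.Agent.GD

open Pool.Agent.UnivT

theorem GSM_sq {x y : ℤ} (hy : 0 ≤ y) (h : x ^ 2 ≤ y ^ 2) : x ≤ y :=
  (le_abs_self x).trans (abs_le_of_sq_le_sq h hy)

theorem GSM_const (U : Ultrafilter ℕ) (N : ℕ → ℕ) (hN : Tendsto N (U : Filter ℕ) atTop) (c : ℤ) :
    Sm U N fun _ => c := by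
  intro j
  filter_upwards [hN.eventually_ge_atTop (c.natAbs ^ j)] with k hk
  have h1 : c.natAbs ^ j < 2 ^ (c.natAbs ^ j) := Nat.lt_two_pow_self
  have h2 : c.natAbs ^ j ≤ 2 ^ N k := h1.le.trans (Nat.pow_le_pow_right (by norm_num) hk)
  have h3 : |c| = (c.natAbs : ℤ) := (Int.natCast_natAbs c).symm
  rw [h3]
  exact_mod_cast h2

theorem GSM_mono (U : Ultrafilter ℕ) (N : ℕ → ℕ) (f g : ℕ → ℤ) (hf : Sm U N f)
    (h : ∀ᶠ k in (U : Filter ℕ), |g k| ≤ |f k|) : Sm U N g := by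
  intro j
  filter_upwards [hf j, h] with k h1 h2
  exact (pow_le_pow_left₀ (abs_nonneg _) h2 j).trans h1

theorem GSM_mul (U : Ultrafilter ℕ) (N : ℕ → ℕ) (f g : ℕ → ℤ) (hf : Sm U N f) (hg : Sm U N g) :
    Sm U N (fun k => f k * g k) := by
  intro j
  filter_upwards [hf (2 * j), hg (2 * j)] with k h1 h2
  apply GSM_sq (by positivity)
  calc (|f k * g k| ^ j) ^ 2 = |f k| ^ (2 * j) * |g k| ^ (2 * j) := by
        rw [abs_mul]
        ring
    _ ≤ 2 ^ N k * 2 ^ N k := mul_le_mul h1 h2 (by positivity) (by positivity)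
    _ = (2 ^ N k) ^ 2 := by ring

theorem GSM_max (U : Ultrafilter ℕ) (N : ℕ → ℕ) (f g : ℕ → ℤ) (hf : Sm U N f) (hg : Sm U N g) :
    Sm U N (fun k => max (|f k|) (|g k|)) := by
  intro j
  filter_upwards [hf j, hg j] with k h1 h2
  have h3 : abs (max (|f k|) (|g k|)) = max (|f k|) (|g k|) :=
    abs_of_nonneg (le_max_of_le_left (abs_nonneg _))
  rw [h3]
  rcases le_total (|f k|) (|g k|) with h | h
  · rw [max_eq_right h]
    exact h2
  · rw [max_eq_left h]
    exact h1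

theorem GSM_two (U : Ultrafilter ℕ) (N : ℕ → ℕ) (hN : Tendsto N (U : Filter ℕ) atTop)
    (f g h : ℕ → ℤ) (hf : Sm U N f) (hg : Sm U N g) (hh : ∀ k, |h k| ≤ |f k| + |g k|) :
    Sm U N h := by
  refine GSM_mono U N _ h (GSM_mul U N _ _ (GSM_const U N hN 2) (GSM_max U N f g hf hg))
    (Eventually.of_forall fun k => ?_)
  change |h k| ≤ abs (2 * max (|f k|) (|g k|))
  have h1 := hh k
  have h2 := le_max_left (|f k|) (|g k|)
  have h3 := le_max_right (|f k|) (|g k|)
  have h4 := le_abs_self (2 * max (|f k|) (|g k|))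
  linarith

theorem GSM_three (U : Ultrafilter ℕ) (N : ℕ → ℕ) (hN : Tendsto N (U : Filter ℕ) atTop)
    (f g : ℕ → ℤ) (C : ℕ) (hf : Sm U N f)
    (hg : ∀ᶠ k in (U : Filter ℕ), |g k| ≤ C * (|f k| + 1)) : Sm U N g := by
  have h1 : Sm U N (fun k => |f k| + 1) :=
    GSM_two U N hN f (fun _ => 1) _ hf (GSM_const U N hN 1) (fun k => by
      have := abs_nonneg (f k)
      rw [abs_of_nonneg (by linarith)]
      simp)
  refine GSM_mono U N _ g (GSM_mul U N _ _ (GSM_const U N hN C) h1) ?_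
  filter_upwards [hg] with k hk
  exact hk.trans (le_abs_self _)

theorem GSM_pow (U : Ultrafilter ℕ) (N : ℕ → ℕ) (e : ℕ → ℤ) (he : Ng U N e) :
    Sm U N (fun k => 2 ^ (e k).toNat) := by
  intro j
  filter_upwards [he j] with k hk
  have h1 : ((e k).toNat : ℤ) ≤ |e k| := by
    rw [Int.toNat_eq_max]
    exact max_le (le_abs_self _) (abs_nonneg _)
  have h2 : (j : ℤ) * ((e k).toNat : ℤ) ≤ N k := (mul_le_mul_of_nonneg_left h1 (by positivity)).trans hk
  have h3 : (e k).toNat * j ≤ N k := by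
    rw [mul_comm]
    exact_mod_cast h2
  have h4 : |(2 : ℤ) ^ (e k).toNat| = 2 ^ (e k).toNat := abs_of_nonneg (by positivity)
  rw [h4, ← pow_mul]
  exact pow_le_pow_right₀ (by norm_num) h3

theorem GSM_four (U : Ultrafilter ℕ) (N : ℕ → ℕ) (e : ℕ → ℤ) (he : Ng U N e) : Sm U N e := by
  have h1 : Ng U N (fun k => |e k|) := by
    intro j
    filter_upwards [he j] with k hk
    rw [abs_abs]
    exact hk
  refine GSM_mono U N _ e (GSM_pow U N _ h1) (Eventually.of_forall fun k => ?_)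
  have h2 : (|e k|.toNat : ℤ) = |e k| := Int.toNat_of_nonneg (abs_nonneg _)
  have h3 : |e k|.toNat < 2 ^ (|e k|.toNat) := Nat.lt_two_pow_self
  calc |e k| = (|e k|.toNat : ℤ) := h2.symm
    _ ≤ ((2 ^ (|e k|.toNat) : ℕ) : ℤ) := by exact_mod_cast h3.le
    _ = 2 ^ (|e k|.toNat) := by push_cast; rfl
    _ ≤ |2 ^ (|e k|.toNat)| := le_abs_self _

theorem GSM_five (U : Ultrafilter ℕ) (N : ℕ → ℕ) (hN : Tendsto N (U : Filter ℕ) atTop)
    (f : ℕ → ℤ) (hf : Sm U N f) : Ng U N (fun k => len (f k)) := by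
  intro j
  filter_upwards [hf (2 * j), hN.eventually_ge_atTop (2 * j)] with k h1 h2
  have h0 : |len (f k)| = len (f k) := abs_of_nonneg (by unfold len; positivity)
  rw [h0]
  by_cases hz : (f k).natAbs = 0
  · have : len (f k) = 0 := by
      unfold len
      rw [hz]
      simp
    rw [this, mul_zero]
    positivity
  · have h3 : (Nat.digits 2 (f k).natAbs).length = Nat.log 2 (f k).natAbs + 1 :=
      Nat.length_digits 2 _ (by norm_num) hz
    have h4 : 2 ^ Nat.log 2 (f k).natAbs ≤ (f k).natAbs := Nat.pow_log_le_self 2 hz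
    have h5 : (f k).natAbs ^ (2 * j) ≤ 2 ^ N k := by
      have h6 : |f k| = ((f k).natAbs : ℤ) := (Int.natCast_natAbs _).symm
      rw [h6] at h1
      exact_mod_cast h1
    have h7 : 2 ^ (Nat.log 2 (f k).natAbs * (2 * j)) ≤ 2 ^ N k := by
      rw [pow_mul]
      exact (Nat.pow_le_pow_left h4 _).trans h5
    have h8 : Nat.log 2 (f k).natAbs * (2 * j) ≤ N k :=
      (Nat.pow_le_pow_iff_right (by norm_num)).1 h7
    have h9 : j * (Nat.log 2 (f k).natAbs + 1) ≤ N k := by nlinarith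
    unfold len
    rw [h3]
    exact_mod_cast h9

theorem GSM_six (U : Ultrafilter ℕ) (N : ℕ → ℕ) (hN : Tendsto N (U : Filter ℕ) atTop)
    (f e : ℕ → ℤ) (C : ℕ) (hf : Sm U N f) (he : Fr U N e) :
    ∀ᶠ k in (U : Filter ℕ), C * |f k| < 2 ^ (e k).toNat := by
  obtain ⟨j, hj⟩ := he
  have h1 : Sm U N (fun k => C * |f k| + 1) := by
    refine GSM_three U N hN f _ (C + 1) hf (Eventually.of_forall fun k => ?_)
    have h2 := abs_nonneg (f k)
    have h3 : (0 : ℤ) ≤ C * |f k| := by positivity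
    rw [abs_of_nonneg (by linarith)]
    push_cast
    nlinarith
  filter_upwards [hj, h1 j, hN.eventually_ge_atTop 1] with k h2 h3 h4
  have h5 : (0 : ℤ) ≤ C * |f k| := by positivity
  have hj0 : j ≠ 0 := by
    rintro rfl
    rw [Nat.cast_zero, zero_mul] at h2
    have : (1 : ℤ) ≤ N k := by exact_mod_cast h4
    linarith
  have h6 : (N k : ℤ) ≤ j * ((e k).toNat : ℤ) :=
    h2.trans (mul_le_mul_of_nonneg_left (Int.self_le_toNat _) (by positivity))
  have h7 : N k ≤ (e k).toNat * j := by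
    rw [mul_comm]
    exact_mod_cast h6
  rw [abs_of_nonneg (by linarith)] at h3
  have h8 : (C * |f k| + 1) ^ j ≤ ((2 : ℤ) ^ (e k).toNat) ^ j := by
    rw [← pow_mul]
    exact h3.trans (pow_le_pow_right₀ (by norm_num) h7)
  have h9 : C * |f k| + 1 ≤ (2 : ℤ) ^ (e k).toNat :=
    (pow_le_pow_iff_left₀ (by linarith) (by positivity) hj0).1 h8
  linarith

/-- **GSM** -/
theorem GSM : GSM_stmt := by
  intro U N hN
  refine ⟨GSM_const U N hN, fun f g hf hg => ⟨?_, ?_, GSM_mul U N f g hf hg⟩,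
    fun f g C hf hg => GSM_three U N hN f g C hf hg,
    fun e he => ⟨GSM_four U N e he, GSM_pow U N e he⟩, fun f hf => GSM_five U N hN f hf,
    fun f e C hf he => GSM_six U N hN f e C hf he⟩
  · exact GSM_two U N hN f g _ hf hg (fun k => abs_add_le _ _)
  · exact GSM_two U N hN f g _ hf hg (fun k => abs_sub _ _)

end Pool.Agent.GD
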